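import Pool.Agent.helper76.DP.Spec

/-!
# Project DP (MP_bf63dc_nt), row MMX: a minimax argument (Blackwell) over surjective lists
-/

set_option autoImplicit false

namespace Pool.Agent.DP

open Finset
open Pool.Agent.FR (mean Eig)

/-- every probability vector is almost the distribution of a surjective list -/
theorem MMX_real (Z : Type) [Fintype Z] [Nonempty Z] (N : ℕ) (hN : Fintype.card Z ≤ N) (ρ : Z → ℝ) (h0 : ∀ z, 0 ≤ ρ z) (h1 : ∑ z, ρ z = 1) :
    ∃ lam : Fin N → Z, Function.Surjective lam ∧ ∀ ψ : Z → ℝ, (∀ z, 0 ≤ ψ z ∧ ψ z ≤ 1) →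
      ∑ i, ψ (lam i) ≤ N * ∑ z, ρ z * ψ z + 2 * Fintype.card Z := by
  classical
  obtain ⟨n, hn⟩ : ∃ n : ℕ, n = Fintype.card Z := ⟨_, rfl⟩
  rw [← hn] at hN ⊢
  have hNn : (n : ℝ) ≤ N := by exact_mod_cast hN
  obtain ⟨z0⟩ := ‹Nonempty Z›
  obtain ⟨k, hk⟩ : ∃ k : Z → ℕ, k = fun z => ⌊ρ z * (N - n)⌋₊ + 1 := ⟨_, rfl⟩
  have hk1 : ∀ z, (k z : ℝ) ≤ ρ z * (N - n) + 1 := by
    intro z
    rw [hk]
    push_cast
    have := Nat.floor_le (mul_nonneg (h0 z) (sub_nonneg.2 hNn))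
    linarith
  have hk2 : ∀ z, ρ z * (N - n) ≤ (k z : ℝ) := by
    intro z
    rw [hk]
    push_cast
    exact (Nat.lt_floor_add_one _).le
  have hsum : ∑ z, ρ z * ((N : ℝ) - n) = N - n := by rw [← Finset.sum_mul, h1, one_mul]
  have hcard : ∑ _z : Z, (1 : ℝ) = n := by rw [Finset.sum_const, Finset.card_univ, ← hn, nsmul_eq_mul, mul_one]
  have hs1 : ∑ z, k z ≤ N := by
    have : ((∑ z, k z : ℕ) : ℝ) ≤ N := by
      push_cast
      calc ∑ z, (k z : ℝ) ≤ ∑ z, (ρ z * (N - n) + 1) := Finset.sum_le_sum fun z _ => hk1 z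
        _ = N := by rw [Finset.sum_add_distrib, hsum, hcard]; ring
    exact_mod_cast this
  obtain ⟨R, hR⟩ : ∃ R : ℕ, ∑ z, k z + R = N := ⟨N - ∑ z, k z, by omega⟩
  have hRn : (R : ℝ) ≤ n := by
    have h2 : ((∑ z, k z : ℕ) : ℝ) + R = N := by exact_mod_cast hR
    have h3 : (N : ℝ) - n ≤ ((∑ z, k z : ℕ) : ℝ) := by
      push_cast
      rw [← hsum]
      exact Finset.sum_le_sum fun z _ => hk2 z
    linarith
  obtain ⟨m, hm⟩ : ∃ m : Z → ℕ, m = fun z => k z + if z = z0 then R else 0 := ⟨_, rfl⟩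
  have hmsum : ∑ z, m z = N := by
    rw [hm, Finset.sum_add_distrib, Finset.sum_ite_eq' univ z0, if_pos (mem_univ _)]
    exact hR
  have hm1 : ∀ z, 1 ≤ m z := by
    intro z
    rw [hm, hk]
    dsimp only
    omega
  have hc : Fintype.card (Σ z, Fin (m z)) = N := by
    rw [Fintype.card_sigma]
    simp only [Fintype.card_fin]
    exact hmsum
  obtain ⟨e⟩ : Nonempty ((Σ z, Fin (m z)) ≃ Fin N) := ⟨Fintype.equivFinOfCardEq hc⟩
  refine ⟨fun i => (e.symm i).1, ?_, ?_⟩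
  · intro z
    refine ⟨e ⟨z, ⟨0, hm1 z⟩⟩, ?_⟩
    simp only [Equiv.symm_apply_apply]
  · intro ψ hψ
    have h2 : ∑ i, ψ (e.symm i).1 = ∑ z, (m z : ℝ) * ψ z := by
      rw [Equiv.sum_comp e.symm (fun x : Σ z, Fin (m z) => ψ x.1), Fintype.sum_sigma]
      refine Finset.sum_congr rfl fun z _ => ?_
      simp only [Finset.sum_const, Finset.card_univ, Fintype.card_fin, nsmul_eq_mul]
    rw [h2]
    have h3 : ∀ z, (m z : ℝ) * ψ z ≤ (N * (ρ z * ψ z) + 1) + (if z = z0 then (R : ℝ) else 0) := by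
      intro z
      have h4 : (m z : ℝ) = (k z : ℝ) + (if z = z0 then (R : ℝ) else 0) := by
        rw [hm]
        push_cast
        rfl
      have h5 := hk1 z
      obtain ⟨h6, h7⟩ := hψ z
      have h8 : 0 ≤ (if z = z0 then (R : ℝ) else 0) := by split_ifs <;> positivity
      have h9 : (k z : ℝ) * ψ z ≤ N * (ρ z * ψ z) + 1 := by
        calc (k z : ℝ) * ψ z ≤ (ρ z * (N - n) + 1) * ψ z := mul_le_mul_of_nonneg_right h5 h6
          _ = N * (ρ z * ψ z) - n * (ρ z * ψ z) + ψ z := by ring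
          _ ≤ N * (ρ z * ψ z) + 1 := by
              have : 0 ≤ (n : ℝ) * (ρ z * ψ z) := mul_nonneg (Nat.cast_nonneg _) (mul_nonneg (h0 z) h6)
              linarith
      rw [h4, add_mul]
      have h10 : (if z = z0 then (R : ℝ) else 0) * ψ z ≤ (if z = z0 then (R : ℝ) else 0) := mul_le_of_le_one_right h8 h7
      linarith
    calc ∑ z, (m z : ℝ) * ψ z ≤ ∑ z, ((N * (ρ z * ψ z) + 1) + (if z = z0 then (R : ℝ) else 0)) := Finset.sum_le_sum fun z _ => h3 z
      _ = N * ∑ z, ρ z * ψ z + n + R := by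
          rw [Finset.sum_add_distrib, Finset.sum_add_distrib, hcard, Finset.mul_sum, Finset.sum_ite_eq' univ z0, if_pos (mem_univ _)]
      _ ≤ N * ∑ z, ρ z * ψ z + 2 * n := by linarith

theorem MMX_sq (s d : ℝ) : (max (s + d) 0) ^ 2 ≤ (max s 0) ^ 2 + 2 * (max s 0 * d) + d ^ 2 := by
  rcases le_total 0 s with h | h
  · rw [max_eq_left h]
    rcases le_total 0 (s + d) with h2 | h2
    · rw [max_eq_left h2]
      nlinarith
    · rw [max_eq_right h2]
      nlinarith [sq_nonneg (s + d)]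
  · rw [max_eq_right h]
    rcases le_total 0 (s + d) with h2 | h2
    · rw [max_eq_left h2]
      nlinarith
    · rw [max_eq_right h2]
      nlinarith [sq_nonneg d]

/-- Blackwell's argument -/
theorem MMX_bw (Z Y : Type) [Fintype Z] [Nonempty Z] (φ : Y → Z → ℝ) (S : Y → Prop) (w : ℝ) (hw : ∀ y z, |w - φ y z| ≤ 1)
    (h : ∀ ρ : Z → ℝ, (∀ z, 0 ≤ ρ z) → ∑ z, ρ z = 1 → ∃ y, S y ∧ w ≤ ∑ z, ρ z * φ y z) (T : ℕ) :
    ∃ Λ : Fin T → Y, (∀ τ, S (Λ τ)) ∧ ∑ z, (max (∑ τ, (w - φ (Λ τ) z)) 0) ^ 2 ≤ T * Fintype.card Z := by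
  classical
  induction T with
  | zero =>
    refine ⟨fun τ => τ.elim0, fun τ => τ.elim0, ?_⟩
    simp
  | succ T ih =>
    obtain ⟨Λ, hΛ, hS⟩ := ih
    obtain ⟨s, hs⟩ : ∃ s : Z → ℝ, s = fun z => ∑ τ, (w - φ (Λ τ) z) := ⟨_, rfl⟩
    have hs' : ∀ z, ∑ τ, (w - φ (Λ τ) z) = s z := fun z => by rw [hs]
    simp only [hs'] at hS
    obtain ⟨y, hy, hy2⟩ : ∃ y, S y ∧ ∑ z, max (s z) 0 * (w - φ y z) ≤ 0 := by
      obtain ⟨A, hA⟩ : ∃ A : ℝ, A = ∑ z, max (s z) 0 := ⟨_, rfl⟩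
      have hA0 : 0 ≤ A := by
        rw [hA]
        exact Finset.sum_nonneg fun z _ => le_max_right _ _
      rcases hA0.eq_or_lt with hA1 | hA1
      · have hz : ∀ z, max (s z) 0 = 0 := by
          intro z
          have h1 : ∑ z, max (s z) 0 = 0 := by rw [← hA, ← hA1]
          exact (Finset.sum_eq_zero_iff_of_nonneg (fun z _ => le_max_right _ _)).1 h1 z (mem_univ z)
        obtain ⟨z0⟩ := ‹Nonempty Z›
        obtain ⟨y, hy, -⟩ := h (fun z => if z = z0 then 1 else 0) (fun z => by split_ifs <;> norm_num) (by rw [Finset.sum_ite_eq' univ z0, if_pos (mem_univ _)])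
        refine ⟨y, hy, ?_⟩
        simp only [hz, zero_mul, Finset.sum_const_zero, le_refl]
      · obtain ⟨y, hy, hy2⟩ := h (fun z => max (s z) 0 / A) (fun z => div_nonneg (le_max_right _ _) hA0) (by rw [← Finset.sum_div, ← hA, div_self hA1.ne'])
        refine ⟨y, hy, ?_⟩
        have h1 : ∑ z, max (s z) 0 / A * φ y z = (∑ z, max (s z) 0 * φ y z) / A := by
          rw [Finset.sum_div]
          exact Finset.sum_congr rfl fun z _ => by ring
        rw [h1, le_div_iff₀ hA1] at hy2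
        have h2 : ∑ z, max (s z) 0 * (w - φ y z) = w * A - ∑ z, max (s z) 0 * φ y z := by
          rw [hA, Finset.mul_sum, ← Finset.sum_sub_distrib]
          exact Finset.sum_congr rfl fun z _ => by ring
        rw [h2]
        linarith
    refine ⟨Fin.snoc Λ y, ?_, ?_⟩
    · intro τ
      refine Fin.lastCases ?_ (fun i => ?_) τ
      · rw [Fin.snoc_last]
        exact hy
      · rw [Fin.snoc_castSucc]
        exact hΛ i
    · have h1 : ∀ z, ∑ τ : Fin (T + 1), (w - φ ((Fin.snoc Λ y : Fin (T + 1) → Y) τ) z) = s z + (w - φ y z) := by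
        intro z
        rw [Fin.sum_univ_castSucc]
        simp only [Fin.snoc_castSucc, Fin.snoc_last, hs']
      simp only [h1]
      calc ∑ z, (max (s z + (w - φ y z)) 0) ^ 2 ≤ ∑ z, ((max (s z) 0) ^ 2 + 2 * (max (s z) 0 * (w - φ y z)) + 1) := by
            refine Finset.sum_le_sum fun z _ => ?_
            have h2 := MMX_sq (s z) (w - φ y z)
            have h3 : (w - φ y z) ^ 2 ≤ 1 := by
              rw [← sq_abs]
              exact pow_le_one₀ (abs_nonneg _) (hw y z)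
            linarith
        _ = ∑ z, (max (s z) 0) ^ 2 + 2 * ∑ z, max (s z) 0 * (w - φ y z) + Fintype.card Z := by
            rw [Finset.sum_add_distrib, Finset.sum_add_distrib, ← Finset.mul_sum, Finset.sum_const, Finset.card_univ, nsmul_eq_mul, mul_one]
        _ ≤ ((T + 1 : ℕ) : ℝ) * Fintype.card Z := by
            push_cast
            linarith

open Classical in
theorem MMX : MMX_stmt := by
  intro Z _ _ δ hδ
  obtain ⟨n, hn⟩ : ∃ n : ℕ, n = Fintype.card Z := ⟨_, rfl⟩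
  have hn1 : 1 ≤ n := by
    rw [hn]
    exact Fintype.card_pos
  obtain ⟨N, hN⟩ : ∃ N : ℕ, (4 * n / δ + n : ℝ) ≤ N := exists_nat_ge _
  have hN0 : (0 : ℝ) < 4 * n / δ + n := by positivity
  have hNpos : (0 : ℝ) < N := lt_of_lt_of_le hN0 hN
  have hNn : Fintype.card Z ≤ N := by
    have : (n : ℝ) ≤ N := by
      have : 0 ≤ 4 * n / δ := by positivity
      linarith
    rw [← hn]
    exact_mod_cast this
  have hNδ : 2 * (n : ℝ) ≤ N * (δ / 2) := by
    have h1 : 4 * n / δ ≤ N := by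
      have : (0 : ℝ) ≤ n := by positivity
      linarith
    rw [div_le_iff₀ hδ] at h1
    linarith
  refine ⟨N, by omega, ?_⟩
  intro v φ hφ hv
  have hreal : ∀ ρ : Z → ℝ, (∀ z, 0 ≤ ρ z) → ∑ z, ρ z = 1 → ∃ y : Fin N → Z, Function.Surjective y ∧ v - δ / 2 ≤ ∑ z, ρ z * φ y z := by
    intro ρ h0 h1
    obtain ⟨lam, hl, hl2⟩ := MMX_real Z N hNn ρ h0 h1
    refine ⟨lam, hl, ?_⟩
    have h2 := hv lam hl
    have h3 := hl2 (φ lam) (hφ lam)
    unfold mean at h2
    rw [Fintype.card_fin, le_div_iff₀ hNpos] at h2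
    rw [← hn] at h3
    have h4 : (v - δ / 2) * N ≤ (∑ z, ρ z * φ lam z) * N := by
      linarith
    exact le_of_mul_le_mul_right h4 hNpos
  obtain ⟨z0⟩ : Nonempty Z := inferInstance
  obtain ⟨y0, hy0, -⟩ := hreal (fun z => if z = z0 then 1 else 0) (fun z => by split_ifs <;> norm_num) (by rw [Finset.sum_ite_eq' univ z0, if_pos (mem_univ _)])
  rcases le_or_gt v δ with hvδ | hvδ
  · refine ⟨1, fun _ => y0, le_refl _, fun _ => hy0, fun z => ?_⟩
    have h1 : 0 ≤ mean fun _ : Fin 1 => φ y0 z := by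
      unfold mean
      exact div_nonneg (Finset.sum_nonneg fun _ _ => (hφ y0 z).1) (Nat.cast_nonneg _)
    linarith
  · have hv1 : v ≤ 1 := by
      refine (hv y0 hy0).trans ?_
      unfold mean
      rw [Fintype.card_fin, div_le_iff₀ hNpos]
      calc ∑ i, φ y0 (y0 i) ≤ ∑ _i : Fin N, (1 : ℝ) := Finset.sum_le_sum fun i _ => (hφ y0 _).2
        _ = 1 * N := by rw [Finset.sum_const, Finset.card_univ, Fintype.card_fin, nsmul_eq_mul]; ring
    have hw : ∀ (y : Fin N → Z) z, |(v - δ / 2) - φ y z| ≤ 1 := by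
      intro y z
      obtain ⟨h1, h2⟩ := hφ y z
      rw [abs_le]
      constructor <;> linarith
    obtain ⟨T, hT⟩ : ∃ T : ℕ, (4 * n / δ ^ 2 : ℝ) ≤ T := exists_nat_ge _
    have hT0 : (0 : ℝ) < T := by
      have : (0 : ℝ) < 4 * n / δ ^ 2 := by positivity
      linarith
    obtain ⟨Λ, hΛ, hs⟩ := MMX_bw Z (Fin N → Z) φ Function.Surjective (v - δ / 2) hw hreal T
    refine ⟨T, Λ, by exact_mod_cast hT0, hΛ, fun z => ?_⟩
    have hs' : ∑ z, (max (∑ τ, ((v - δ / 2) - φ (Λ τ) z)) 0) ^ 2 ≤ (T : ℝ) * n := by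
      rw [hn]; exact hs
    have h1 : (max (∑ τ, ((v - δ / 2) - φ (Λ τ) z)) 0) ^ 2 ≤ T * n :=
      (Finset.single_le_sum (f := fun z => (max (∑ τ, ((v - δ / 2) - φ (Λ τ) z)) 0) ^ 2) (fun z _ => sq_nonneg _) (mem_univ z)).trans hs'
    have h2 : (T : ℝ) * n ≤ (T * (δ / 2)) ^ 2 := by
      rw [div_le_iff₀ (by positivity)] at hT
      have : (T : ℝ) * (4 * n) ≤ T * (T * δ ^ 2) := mul_le_mul_of_nonneg_left hT hT0.le
      nlinarith
    have h3 : max (∑ τ, ((v - δ / 2) - φ (Λ τ) z)) 0 ≤ T * (δ / 2) :=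
      le_of_sq_le_sq (h1.trans h2) (by positivity)
    have h4 : ∑ τ, ((v - δ / 2) - φ (Λ τ) z) ≤ T * (δ / 2) := (le_max_left _ _).trans h3
    rw [Finset.sum_sub_distrib, Finset.sum_const, Finset.card_univ, Fintype.card_fin, nsmul_eq_mul] at h4
    unfold mean
    rw [Fintype.card_fin, le_div_iff₀ hT0]
    linarith

end Pool.Agent.DP
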